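import Pool.Agent.H91.LamBV

set_option autoImplicit false

open H91.LamBV in
theorem Pool.Agent.Results.MP_2872ab_an.NoSingular.result :
    ∀ (a b : ℝ) (lam : ℕ → ℝ), (∀ n, 0 < lam n) → Monotone lam →
    Filter.Tendsto lam Filter.atTop Filter.atTop → ∀ f : ℝ → ℝ, ¬ H91.LamBV.Sing lam a b f :=
  main
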